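import Mathlib

open Finset

namespace Pool.Agent.R481.S2

theorem pow_le_two_pow (k : ℕ) : ∃ C : ℕ, 1 ≤ C ∧ ∀ v : ℕ, (v + 1) ^ k ≤ C * 2 ^ v := by
  have h1 : Filter.Tendsto (fun n : ℕ => (n : ℝ) ^ k / (2 : ℝ) ^ n) Filter.atTop (nhds 0) :=
    tendsto_pow_const_div_const_pow_of_one_lt k (by norm_num)
  obtain ⟨B, hB⟩ := h1.bddAbove_range
  refine ⟨⌈2 * B⌉₊ + 1, by omega, fun v => ?_⟩
  have h2 := hB ⟨v + 1, rfl⟩
  simp only at h2
  have h3 : (0:ℝ) < (2:ℝ) ^ (v + 1) := by positivity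
  rw [div_le_iff₀ h3] at h2
  have h4 : (((v + 1) ^ k : ℕ) : ℝ) ≤ (((⌈2 * B⌉₊ + 1) * 2 ^ v : ℕ) : ℝ) := by
    push_cast at h2 ⊢
    have h5 : 2 * B ≤ (⌈2 * B⌉₊ : ℝ) := Nat.le_ceil _
    have h6 : (0:ℝ) < (2:ℝ) ^ v := by positivity
    calc ((v:ℝ) + 1) ^ k ≤ B * 2 ^ (v + 1) := h2
      _ = (2 * B) * 2 ^ v := by ring
      _ ≤ ((⌈2 * B⌉₊ : ℝ) + 1) * 2 ^ v := by
        apply mul_le_mul_of_nonneg_right _ h6.le
        linarith
  exact_mod_cast h4

theorem divisor_bound (k : ℕ) : ∃ K : ℕ, ∀ n : ℕ, n ≠ 0 → (n.divisors.card) ^ k ≤ K * n := by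
  obtain ⟨C, hC1, hC⟩ := pow_le_two_pow k
  refine ⟨∏ p ∈ range (2 ^ k), C, fun n hn => ?_⟩
  rw [Nat.card_divisors hn, ← Finset.prod_pow]
  conv_rhs => rw [← Nat.prod_factorization_pow_eq_self hn]
  rw [Finsupp.prod, Nat.support_factorization]
  have h1 : ∀ p ∈ n.primeFactors, (n.factorization p + 1) ^ k ≤
      (if p < 2 ^ k then C else 1) * p ^ n.factorization p := by
    intro p hp
    have hp2 : 2 ≤ p := (Nat.prime_of_mem_primeFactors hp).two_le
    split_ifs with h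
    · exact (hC _).trans (Nat.mul_le_mul_left _ (Nat.pow_le_pow_left hp2 _))
    · rw [one_mul]
      calc (n.factorization p + 1) ^ k ≤ (2 ^ n.factorization p) ^ k :=
            Nat.pow_le_pow_left Nat.lt_two_pow_self _
        _ = (2 ^ k) ^ n.factorization p := by
            rw [← pow_mul, mul_comm, pow_mul]
        _ ≤ _ := Nat.pow_le_pow_left (by omega) _
  calc _ ≤ ∏ p ∈ n.primeFactors, (if p < 2 ^ k then C else 1) * p ^ n.factorization p :=
        Finset.prod_le_prod' h1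
    _ = (∏ p ∈ n.primeFactors, (if p < 2 ^ k then C else 1)) *
        ∏ p ∈ n.primeFactors, p ^ n.factorization p := Finset.prod_mul_distrib
    _ ≤ _ := by
        apply Nat.mul_le_mul_right
        rw [← Finset.prod_filter]
        apply Finset.prod_le_prod_of_subset_of_one_le'
        · intro p hp
          rw [Finset.mem_filter] at hp
          exact Finset.mem_range.mpr hp.2
        · intro i _ _
          exact hC1

/-- `d(n) ≤ C n^ε` -/
theorem divisor_bound_real (ε : ℝ) (hε : 0 < ε) : ∃ C : ℝ, 0 < C ∧ ∀ n : ℕ, n ≠ 0 →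
    (n.divisors.card : ℝ) ≤ C * (n : ℝ) ^ ε := by
  obtain ⟨k, hk⟩ := exists_nat_gt (1 / ε)
  have hk0 : 0 < k := by
    by_contra h
    have : k = 0 := by omega
    rw [this] at hk
    have : 0 < 1 / ε := by positivity
    simp at hk
    linarith
  obtain ⟨K, hK⟩ := divisor_bound k
  have hkr : (0:ℝ) < k := by exact_mod_cast hk0
  have hK1 : (0:ℝ) < (K:ℝ) + 1 := by
    have : (0:ℝ) ≤ (K:ℝ) := Nat.cast_nonneg K
    linarith
  refine ⟨((K:ℝ) + 1) ^ (1 / (k:ℝ)), Real.rpow_pos_of_pos hK1 _, fun n hn => ?_⟩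
  have hn1' : 1 ≤ n := Nat.one_le_iff_ne_zero.2 hn
  have hn1 : (1:ℝ) ≤ n := by exact_mod_cast hn1'
  have h1 : ((n.divisors.card : ℝ)) ^ k ≤ ((K:ℝ) + 1) * n := by
    have h3 := hK n hn
    have h2 : ((n.divisors.card : ℝ)) ^ k ≤ (K:ℝ) * n := by
      rw [← Nat.cast_pow, ← Nat.cast_mul]
      exact Nat.cast_le.2 h3
    nlinarith
  have h3 : (n.divisors.card : ℝ) = (((n.divisors.card : ℝ)) ^ k) ^ (1 / (k:ℝ)) := by
    rw [← Real.rpow_natCast, ← Real.rpow_mul (Nat.cast_nonneg _)]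
    rw [mul_one_div_cancel hkr.ne', Real.rpow_one]
  rw [h3]
  calc _ ≤ (((K:ℝ) + 1) * n) ^ (1 / (k:ℝ)) := Real.rpow_le_rpow (pow_nonneg (Nat.cast_nonneg _) _) h1 (by positivity)
    _ = ((K:ℝ) + 1) ^ (1 / (k:ℝ)) * (n:ℝ) ^ (1 / (k:ℝ)) := Real.mul_rpow (by positivity) (by positivity)
    _ ≤ _ := by
      apply mul_le_mul_of_nonneg_left _ (by positivity)
      apply Real.rpow_le_rpow_of_exponent_le hn1
      rw [div_le_iff₀ hkr]
      rw [div_lt_iff₀ hε] at hk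
      linarith

end Pool.Agent.R481.S2
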