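import Mathlib

/-!
# Arithmetic of `σ₂ = σₙ` with at most two distinct entries larger than one

`Eqn m a b x y` says that the multiset of `m` ones, `a` copies of `x` and `b` copies of `y`
satisfies `σ₂ = σₙ`.
-/

namespace Pool.Agent.R481.S2

/-- `m` ones, `a` copies of `x` and `b` copies of `y` satisfy `σ₂ = σₙ` (written as
`(sum)² = 2 · product + sum of squares`). -/
def Eqn (m a b x y : ℕ) : Prop :=
  (m + a * x + b * y) ^ 2 = 2 * (x ^ a * y ^ b) + (m + a * x ^ 2 + b * y ^ 2)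

lemma Eqn.symm {m a b x y : ℕ} (h : Eqn m a b x y) : Eqn m b a y x := by
  unfold Eqn at *
  rw [show m + b * y + a * x = m + a * x + b * y by ring, h]
  ring

lemma not_11 {m x y : ℕ} (hm : 1 ≤ m) (hx : 2 ≤ x) (hy : 2 ≤ y) : ¬ Eqn m 1 1 x y := by
  intro h
  unfold Eqn at h
  nlinarith [Nat.mul_le_mul hm hx, Nat.mul_le_mul hm hy, Nat.mul_le_mul hm hm]

/-- Type `(2,1)`. -/
lemma type21 {p m x y : ℕ} (hp : p.Prime) (h7 : 7 ≤ p) (hm : m + 1 = p) (hx : 2 ≤ x) (hy : 2 ≤ y)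
    (h : Eqn m 2 1 x y) :
    ∃ X D : ℕ, D ∣ (X + 1) * (X + 3) ∧ 3 * D ≤ (X + 1) * (X + 3) ∧ p + D = X ^ 2 := by
  obtain ⟨X, rfl⟩ : ∃ X, x = X + 1 := ⟨x - 1, by omega⟩
  obtain ⟨Y, rfl⟩ : ∃ Y, y = Y + 1 := ⟨y - 1, by omega⟩
  have hX : 1 ≤ X := by omega
  have hY : 1 ≤ Y := by omega
  unfold Eqn at h
  -- the main identity over the integers
  have key : 2 * (Y : ℤ) * ((X : ℤ) ^ 2 - p) = p * (p + 3 + 4 * X) := by
    have h' : ((m : ℤ) + 2 * (X + 1) + 1 * (Y + 1)) ^ 2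
        = 2 * ((X + 1) ^ 2 * (Y + 1) ^ 1) + (m + 2 * (X + 1) ^ 2 + 1 * (Y + 1) ^ 2) := by
      exact_mod_cast h
    have hm' : (p : ℤ) = m + 1 := by rw [← hm]; push_cast; ring
    rw [hm']
    linear_combination (-1) * h'
  have hp0 : (0 : ℤ) < p := by exact_mod_cast hp.pos
  have hpos : 0 < (X : ℤ) ^ 2 - p := by
    by_contra hcon
    push Not at hcon
    have h1 : 0 < (p : ℤ) * (p + 3 + 4 * X) := by positivity
    have h2 : 2 * (Y : ℤ) * ((X : ℤ) ^ 2 - p) ≤ 0 :=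
      mul_nonpos_of_nonneg_of_nonpos (by positivity) hcon
    linarith
  have hpint : Prime (p : ℤ) := Nat.prime_iff_prime_int.mp hp
  have hdvd : (p : ℤ) ∣ 2 * (Y : ℤ) * ((X : ℤ) ^ 2 - p) := ⟨_, key⟩
  rcases hpint.dvd_or_dvd hdvd with h1 | h1
  · rcases hpint.dvd_or_dvd h1 with h2 | h2
    · exfalso
      have h3 : p ∣ 2 := by exact_mod_cast h2
      have := Nat.le_of_dvd (by norm_num) h3
      omega
    · have h3 : p ∣ Y := by exact_mod_cast h2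
      obtain ⟨Z, rfl⟩ := h3
      have hZ : 1 ≤ Z := by
        rcases Nat.eq_zero_or_pos Z with h0 | h0
        · subst h0; omega
        · exact h0
      have key2 : 2 * (Z : ℤ) * ((X : ℤ) ^ 2 - p) = p + 3 + 4 * X := by
        have : (p : ℤ) * (2 * (Z : ℤ) * ((X : ℤ) ^ 2 - p)) = p * (p + 3 + 4 * X) := by
          push_cast at key
          linarith
        exact mul_left_cancel₀ hp0.ne' this
      have hlt : p < X ^ 2 := by
        have : (p : ℤ) < (X : ℤ) ^ 2 := by linarith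
        exact_mod_cast this
      refine ⟨X, X ^ 2 - p, ?_, ?_, by omega⟩
      · refine ⟨2 * Z + 1, ?_⟩
        have : ((X : ℤ) + 1) * (X + 3) = ((X : ℤ) ^ 2 - p) * (2 * Z + 1) := by linarith
        zify [hlt.le]
        exact this
      · have hZ' : (1 : ℤ) ≤ Z := by exact_mod_cast hZ
        have : 3 * ((X : ℤ) ^ 2 - p) ≤ ((X : ℤ) + 1) * (X + 3) := by nlinarith
        zify [hlt.le]
        exact this
  · exfalso
    have h2 : (p : ℤ) ∣ (X : ℤ) ^ 2 := by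
      have := dvd_add h1 (dvd_refl (p : ℤ))
      simpa using this
    have h3 : (p : ℤ) ∣ (X : ℤ) := hpint.dvd_of_dvd_pow h2
    have h4 : p ∣ X := by exact_mod_cast h3
    obtain ⟨Z, rfl⟩ := h4
    have hZ : 1 ≤ Z := by
      rcases Nat.eq_zero_or_pos Z with h0 | h0
      · subst h0; omega
      · exact h0
    have key2 : 2 * (Y : ℤ) * ((p : ℤ) * (Z : ℤ) ^ 2 - 1) = p + 3 + 4 * (p * Z) := by
      have : (p : ℤ) * (2 * (Y : ℤ) * ((p : ℤ) * (Z : ℤ) ^ 2 - 1)) = p * (p + 3 + 4 * (p * Z)) := by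
        push_cast at key
        linarith
      exact mul_left_cancel₀ hp0.ne' this
    have hp7 : (7 : ℤ) ≤ p := by exact_mod_cast h7
    have hY' : (1 : ℤ) ≤ Y := by exact_mod_cast hY
    have hZ' : (1 : ℤ) ≤ Z := by exact_mod_cast hZ
    have hZ3 : (Z : ℤ) < 3 := by
      by_contra hcon
      push Not at hcon
      have h5 : 2 * ((p : ℤ) * (Z : ℤ) ^ 2 - 1) ≤ 2 * (Y : ℤ) * ((p : ℤ) * (Z : ℤ) ^ 2 - 1) := by
        have : 0 ≤ (p : ℤ) * (Z : ℤ) ^ 2 - 1 := by nlinarith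
        nlinarith
      nlinarith
    have hZ12 : (Z : ℤ) = 1 ∨ (Z : ℤ) = 2 := by omega
    rcases hZ12 with h5 | h5
    · rw [h5] at key2
      -- 2Y(p-1) = 5p+3
      have h6 : (Y : ℤ) < 4 := by
        by_contra hcon
        push Not at hcon
        nlinarith
      have h7' : (2 : ℤ) < Y := by
        by_contra hcon
        push Not at hcon
        nlinarith
      have h8 : (Y : ℤ) = 3 := by omega
      rw [h8] at key2
      have : (p : ℤ) = 9 := by linarith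
      have h9 : p = 9 := by exact_mod_cast this
      subst h9
      exact absurd hp (by norm_num)
    · rw [h5] at key2
      have h6 : (Y : ℤ) < 2 := by
        by_contra hcon
        push Not at hcon
        nlinarith
      have h8 : (Y : ℤ) = 1 := by omega
      rw [h8] at key2
      linarith

/-- Type `(2,2)` does not occur for `n - 2 ≡ 7 (mod 8)`. -/
lemma not_22 {p m x y : ℕ} (hp : p % 8 = 7) (hm : m + 2 = p) (hx : 2 ≤ x) (hy : 2 ≤ y) :
    ¬ Eqn m 2 2 x y := by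
  intro h
  obtain ⟨X, rfl⟩ : ∃ X, x = X + 1 := ⟨x - 1, by omega⟩
  obtain ⟨Y, rfl⟩ : ∃ Y, y = Y + 1 := ⟨y - 1, by omega⟩
  unfold Eqn at h
  have key : 2 * ((X : ℤ) * Y) ^ 2 + 4 * ((X : ℤ) * Y) * (X + Y) - 4 * (X + Y) * p
      = p * (p + 3) := by
    have h' : ((m : ℤ) + 2 * (X + 1) + 2 * (Y + 1)) ^ 2
        = 2 * ((X + 1) ^ 2 * (Y + 1) ^ 2) + (m + 2 * (X + 1) ^ 2 + 2 * (Y + 1) ^ 2) := by
      exact_mod_cast h
    have hm' : (p : ℤ) = m + 2 := by rw [← hm]; push_cast; ring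
    rw [hm']
    linear_combination (-1) * h'
  obtain ⟨t, ht⟩ : ∃ t : ℤ, (p : ℤ) = 8 * t + 7 := ⟨(p : ℤ) / 8, by omega⟩
  rw [ht] at key
  rcases Int.even_or_odd (X : ℤ) with ⟨u, hu⟩ | ⟨u, hu⟩ <;>
  rcases Int.even_or_odd (Y : ℤ) with ⟨v, hv⟩ | ⟨v, hv⟩ <;>
  rw [hu, hv] at key <;> ring_nf at key <;> omega

/-- Type `(a,1)` with `a ≥ 3`: the divisor, and the size of `x ^ a`. -/
lemma typeA_dvd {m a x y : ℕ} (ha : 3 ≤ a) (hm : 1 ≤ m) (hx : 2 ≤ x) (hy : 2 ≤ y)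
    (h : Eqn m a 1 x y) :
    ∃ D : ℕ, m + a * x + D = x ^ a ∧
      D ∣ x ^ (2 * a) - (x ^ a + a * (x * (x - 1))) ∧
      4 * D ≤ (m + a * x) ^ 2 := by
  unfold Eqn at h
  simp only [one_mul, pow_one] at h
  have h' : 2 * (y : ℤ) * ((x : ℤ) ^ a - (m + a * x)) = ((m : ℤ) + a * x) ^ 2 - (m + a * x ^ 2) := by
    have : ((m : ℤ) + a * x + y) ^ 2 = 2 * ((x : ℤ) ^ a * y) + (m + a * x ^ 2 + y ^ 2) := by
      exact_mod_cast h
    linear_combination (-1) * this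
  have hm' : (1 : ℤ) ≤ m := by exact_mod_cast hm
  have ha' : (3 : ℤ) ≤ a := by exact_mod_cast ha
  have hx' : (2 : ℤ) ≤ x := by exact_mod_cast hx
  have hy' : (2 : ℤ) ≤ y := by exact_mod_cast hy
  have hax : (a : ℤ) * x ^ 2 ≤ (a * x) ^ 2 := by nlinarith [sq_nonneg (x : ℤ)]
  have hmax : 0 < (m : ℤ) * (a * x) := by positivity
  have hpos : 0 < ((m : ℤ) + a * x) ^ 2 - (m + a * x ^ 2) := by nlinarith
  have hD : 0 < (x : ℤ) ^ a - (m + a * x) := by
    by_contra hcon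
    push Not at hcon
    have : 2 * (y : ℤ) * ((x : ℤ) ^ a - (m + a * x)) ≤ 0 :=
      mul_nonpos_of_nonneg_of_nonpos (by positivity) hcon
    linarith
  have hlt : m + a * x < x ^ a := by
    have : ((m + a * x : ℕ) : ℤ) < ((x ^ a : ℕ) : ℤ) := by push_cast; linarith
    exact_mod_cast this
  refine ⟨x ^ a - (m + a * x), by omega, ?_, ?_⟩
  · refine ⟨2 * y + (x ^ a + (m + a * x)) - 1, ?_⟩
    have h1 : (x : ℤ) ^ (2 * a) - (x ^ a + a * (x * (x - 1)))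
        = ((x : ℤ) ^ a - (m + a * x)) * (2 * y + (x ^ a + (m + a * x)) - 1) := by
      rw [pow_mul']
      linear_combination (-1) * h'
    have h2 : x ^ a + a * (x * (x - 1)) ≤ x ^ (2 * a) := by
      have h3 : ((x ^ a + a * (x * (x - 1)) : ℕ) : ℤ) ≤ ((x ^ (2 * a) : ℕ) : ℤ) := by
        push_cast [Nat.cast_sub (show 1 ≤ x by omega)]
        have h4 : 0 ≤ ((x : ℤ) ^ a - (m + a * x)) * (2 * y + (x ^ a + (m + a * x)) - 1) := by
          apply mul_nonneg hD.le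
          have : 0 ≤ (x : ℤ) ^ a := by positivity
          nlinarith
        linarith
      exact_mod_cast h3
    zify [h2, hlt.le, show 1 ≤ x by omega, show 1 ≤ 2 * y + (x ^ a + (m + a * x)) by omega]
    linarith
  · zify [hlt.le]
    nlinarith

lemma bern3 (X a : ℕ) (ha : 3 ≤ a) : 3 * (a * X) ^ 2 ≤ 4 * (X + 1) ^ a := by
  rcases Nat.eq_zero_or_pos X with h0 | h0
  · subst h0; simp
  induction a, ha using Nat.le_induction with
  | base =>
    have h1 : (0 : ℤ) ≤ ((X : ℤ) - 2) ^ 2 * (4 * X + 1) := by positivity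
    have : 3 * (3 * (X : ℤ)) ^ 2 ≤ 4 * (X + 1) ^ 3 := by nlinarith
    exact_mod_cast this
  | succ a ha ih =>
    have h2 : 3 * ((a + 1) * X) ^ 2 ≤ 2 * (3 * (a * X) ^ 2) := by
      have h3 : (a + 1) ^ 2 ≤ 2 * a ^ 2 := by nlinarith
      calc 3 * ((a + 1) * X) ^ 2 = 3 * X ^ 2 * (a + 1) ^ 2 := by ring
        _ ≤ 3 * X ^ 2 * (2 * a ^ 2) := Nat.mul_le_mul_left _ h3
        _ = _ := by ring
    calc 3 * ((a + 1) * X) ^ 2 ≤ 2 * (3 * (a * X) ^ 2) := h2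
      _ ≤ 2 * (4 * (X + 1) ^ a) := Nat.mul_le_mul_left _ ih
      _ ≤ (X + 1) * (4 * (X + 1) ^ a) := Nat.mul_le_mul_right _ (by omega)
      _ = 4 * (X + 1) ^ (a + 1) := by ring

lemma typeA_size {m a x D : ℕ} (ha : 3 ≤ a) (hx : 2 ≤ x)
    (h1 : m + a * x + D = x ^ a) (h2 : 4 * D ≤ (m + a * x) ^ 2) :
    x ^ a ≤ 2 * (m + a + 2) ^ 2 := by
  obtain ⟨X, rfl⟩ : ∃ X, x = X + 1 := ⟨x - 1, by omega⟩
  have h3 := bern3 X a ha
  set R := (X + 1) ^ a with hR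
  have h4 : 4 * R ≤ (m + a + 2 + a * X) ^ 2 := by
    have : m + a + 2 + a * X = m + a * (X + 1) + 2 := by ring
    rw [this]
    nlinarith
  by_contra hcon
  push Not at hcon
  zify at h3 h4 hcon
  have h5 : ((m : ℤ) + a + 2 + a * X) ^ 2 * 15 ≤ 40 * (m + a + 2) ^ 2 + 24 * (a * X) ^ 2 := by
    nlinarith [sq_nonneg (5 * ((m : ℤ) + a + 2) - 3 * (a * X))]
  have h6 : (0 : ℤ) ≤ (m + a + 2 : ℤ) ^ 2 := sq_nonneg _
  nlinarith

lemma bern2 (X a : ℕ) (ha : 2 ≤ a) : (2 + a * X) ^ 2 ≤ 4 * (X + 1) ^ a := by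
  induction a, ha using Nat.le_induction with
  | base => nlinarith
  | succ a ha ih =>
    calc (2 + (a + 1) * X) ^ 2 ≤ (X + 1) * (2 + a * X) ^ 2 := by
          have : (2 + (a + 1) * X) ^ 2 + (X * ((2 + a * X) * (a * X) - X))
              = (X + 1) * (2 + a * X) ^ 2 := by
            have h1 : X ≤ (2 + a * X) * (a * X) := by nlinarith [Nat.zero_le (a * X)]
            zify [h1]
            ring
          omega
      _ ≤ (X + 1) * (4 * (X + 1) ^ a) := Nat.mul_le_mul_left _ ih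
      _ = 4 * (X + 1) ^ (a + 1) := by ring

/-- For `a, b ≥ 2` the product is at most a constant times `n²`. -/
lemma typeBC_size {m a b x y : ℕ} (ha : 2 ≤ a) (hb : 2 ≤ b) (hx : 2 ≤ x) (hy : 2 ≤ y)
    (h : Eqn m a b x y) : x ^ a * y ^ b ≤ 400 * (m + a + b) ^ 2 := by
  obtain ⟨X, rfl⟩ : ∃ X, x = X + 1 := ⟨x - 1, by omega⟩
  obtain ⟨Y, rfl⟩ : ∃ Y, y = Y + 1 := ⟨y - 1, by omega⟩
  have hX : 1 ≤ X := by omega
  have hY : 1 ≤ Y := by omega
  unfold Eqn at h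
  have h1 := bern2 X a ha
  have h2 := bern2 Y b hb
  set P := (X + 1) ^ a * (Y + 1) ^ b with hP
  set n := m + a + b with hn
  set S := a * X + b * Y with hS
  have hT : m + a * (X + 1) + b * (Y + 1) = n + S := by rw [hn, hS]; ring
  rw [hT] at h
  have h3 : 2 * P ≤ (n + S) ^ 2 := by omega
  have hα : 2 ≤ a * X := by nlinarith
  have hβ : 2 ≤ b * Y := by nlinarith
  have h4 : (4 + 3 * S) ^ 2 ≤ 16 * P := by
    have h5 : 4 + 3 * S ≤ (2 + a * X) * (2 + b * Y) := by rw [hS]; nlinarith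
    calc (4 + 3 * S) ^ 2 ≤ ((2 + a * X) * (2 + b * Y)) ^ 2 := Nat.pow_le_pow_left h5 2
      _ = (2 + a * X) ^ 2 * (2 + b * Y) ^ 2 := by ring
      _ ≤ (4 * (X + 1) ^ a) * (4 * (Y + 1) ^ b) := Nat.mul_le_mul h1 h2
      _ = 16 * P := by rw [hP]; ring
  by_contra hcon
  push Not at hcon
  zify at h3 h4 hcon
  have h5 : ((n : ℤ) + S) ^ 2 * 10 ≤ 110 * n ^ 2 + 11 * S ^ 2 := by
    nlinarith [sq_nonneg (10 * (n : ℤ) - S)]
  have h6 : (0 : ℤ) ≤ (n : ℤ) ^ 2 := sq_nonneg _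
  have h7 : (0 : ℤ) ≤ (S : ℤ) := by positivity
  nlinarith

end Pool.Agent.R481.S2
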