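import Mathlib
namespace Pool.Agent.R481.S2
set_option maxHeartbeats 1000000

/-- Three lattice points on the convex arc `W² = A x² - 8 x + c`. -/
lemma three_points {A c x₁ x₂ x₃ W₁ W₂ W₃ : ℤ} (hA : 72 ≤ A) (hc : 1 ≤ c)
    (hx1 : 1 ≤ x₁) (h12 : x₁ < x₂) (h23 : x₂ < x₃)
    (hW1 : 0 < W₁) (hW2 : 0 < W₂) (hW3 : 0 < W₃)
    (e1 : W₁ ^ 2 = A * x₁ ^ 2 - 8 * x₁ + c) (e2 : W₂ ^ 2 = A * x₂ ^ 2 - 8 * x₂ + c)
    (e3 : W₃ ^ 2 = A * x₃ ^ 2 - 8 * x₃ + c) :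
    8 * W₁ ^ 3 ≤ (A * c - 16) * (x₃ - x₁) ^ 3 := by
  have key : ∀ {x x' W W' : ℤ}, 1 ≤ x → x < x' → 0 < W → 0 < W' → W ^ 2 = A * x ^ 2 - 8 * x + c →
      W' ^ 2 = A * x' ^ 2 - 8 * x' + c →
      W < W' ∧ 0 < (A * x' - 4) * W - (A * x - 4) * W' ∧
      ((A * x' - 4) * W - (A * x - 4) * W') * W ≤ (A * c - 16) * (x' - x) := by
    intro x x' W W' hx hxx hW hW' e e'
    have hu : 0 < A * x - 4 := by nlinarith
    have hu' : 0 < A * x' - 4 := by nlinarith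
    have hd : 0 < x' - x := by linarith
    have hWW : W < W' := by
      have h1 : W' ^ 2 - W ^ 2 = (x' - x) * ((A * x - 4) + (A * x' - 4)) := by rw [e, e']; ring
      have h2 : 0 < (x' - x) * ((A * x - 4) + (A * x' - 4)) := by positivity
      nlinarith
    have hΔ : 0 < A * c - 16 := by nlinarith
    have hsum : 0 < (A * x - 4) * W' + (A * x' - 4) * W := by positivity
    have hid : ((A * x' - 4) * W - (A * x - 4) * W') * ((A * x - 4) * W' + (A * x' - 4) * W)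
        = (A * c - 16) * ((x' - x) * ((A * x - 4) + (A * x' - 4))) := by
      have : ((A * x' - 4) * W - (A * x - 4) * W') * ((A * x - 4) * W' + (A * x' - 4) * W)
        = (A * x' - 4) ^ 2 * W ^ 2 - (A * x - 4) ^ 2 * W' ^ 2 := by ring
      rw [this, e, e']
      ring
    have hpos : 0 < (A * x' - 4) * W - (A * x - 4) * W' := by
      have h3 : 0 < (A * c - 16) * ((x' - x) * ((A * x - 4) + (A * x' - 4))) := by positivity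
      rw [← hid] at h3
      exact (mul_pos_iff_of_pos_right hsum).mp h3
    refine ⟨hWW, hpos, ?_⟩
    set v := (A * x' - 4) * W - (A * x - 4) * W' with hv
    have h4 : v * (((A * x - 4) + (A * x' - 4)) * W) ≤ v * ((A * x - 4) * W' + (A * x' - 4) * W) := by
      apply mul_le_mul_of_nonneg_left _ hpos.le
      nlinarith
    have h5 : (v * W) * ((A * x - 4) + (A * x' - 4))
        ≤ ((A * c - 16) * (x' - x)) * ((A * x - 4) + (A * x' - 4)) := by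
      calc (v * W) * ((A * x - 4) + (A * x' - 4)) = v * (((A * x - 4) + (A * x' - 4)) * W) := by ring
        _ ≤ v * ((A * x - 4) * W' + (A * x' - 4) * W) := h4
        _ = (A * c - 16) * ((x' - x) * ((A * x - 4) + (A * x' - 4))) := hid
        _ = _ := by ring
    exact le_of_mul_le_mul_right h5 (by linarith)
  obtain ⟨hW12, hv12, hb12⟩ := key hx1 h12 hW1 hW2 e1 e2
  obtain ⟨hW13, hv13, hb13⟩ := key hx1 (h12.trans h23) hW1 hW3 e1 e3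
  obtain ⟨hW23, hv23, hb23⟩ := key (by linarith) h23 hW2 hW3 e2 e3
  set v12 := (A * x₂ - 4) * W₁ - (A * x₁ - 4) * W₂ with hv12d
  set v13 := (A * x₃ - 4) * W₁ - (A * x₁ - 4) * W₃ with hv13d
  set v23 := (A * x₃ - 4) * W₂ - (A * x₂ - 4) * W₃ with hv23d
  have hΔ : 0 < A * c - 16 := by nlinarith
  -- the determinant
  have hdet : ((x₂ - x₁) * (W₃ - W₂) - (x₃ - x₂) * (W₂ - W₁)) * ((W₁ + W₂) * (W₂ + W₃))
      = (x₂ - x₁) * (x₃ - x₂) * (v12 + v13 + v23) := by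
    have h1 : (W₃ - W₂) * (W₂ + W₃) = (x₃ - x₂) * ((A * x₂ - 4) + (A * x₃ - 4)) := by
      have : (W₃ - W₂) * (W₂ + W₃) = W₃ ^ 2 - W₂ ^ 2 := by ring
      rw [this, e3, e2]; ring
    have h2 : (W₂ - W₁) * (W₁ + W₂) = (x₂ - x₁) * ((A * x₁ - 4) + (A * x₂ - 4)) := by
      have : (W₂ - W₁) * (W₁ + W₂) = W₂ ^ 2 - W₁ ^ 2 := by ring
      rw [this, e2, e1]; ring
    have h3 : ((x₂ - x₁) * (W₃ - W₂) - (x₃ - x₂) * (W₂ - W₁)) * ((W₁ + W₂) * (W₂ + W₃))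
        = (x₂ - x₁) * (W₁ + W₂) * ((W₃ - W₂) * (W₂ + W₃))
          - (x₃ - x₂) * (W₂ + W₃) * ((W₂ - W₁) * (W₁ + W₂)) := by ring
    rw [h3, h1, h2, hv12d, hv13d, hv23d]
    ring
  have hd1 : 0 < x₂ - x₁ := by linarith
  have hd2 : 0 < x₃ - x₂ := by linarith
  have hdpos : 0 < (x₂ - x₁) * (W₃ - W₂) - (x₃ - x₂) * (W₂ - W₁) := by
    have h1 : 0 < (x₂ - x₁) * (x₃ - x₂) * (v12 + v13 + v23) := by positivity
    rw [← hdet] at h1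
    exact (mul_pos_iff_of_pos_right (by positivity)).mp h1
  have hge : (W₁ + W₂) * (W₂ + W₃) ≤ (x₂ - x₁) * (x₃ - x₂) * (v12 + v13 + v23) := by
    rw [← hdet]
    have h1 : 0 < (W₁ + W₂) * (W₂ + W₃) := by positivity
    exact le_mul_of_one_le_left h1.le hdpos
  have h4 : 4 * W₁ ^ 2 ≤ (W₁ + W₂) * (W₂ + W₃) := by nlinarith
  have h5 : v23 * W₁ ≤ (A * c - 16) * (x₃ - x₂) := by nlinarith
  have h6 : (v12 + v13 + v23) * W₁ ≤ 2 * ((A * c - 16) * (x₃ - x₁)) := by nlinarith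
  have h7 : 4 * ((x₂ - x₁) * (x₃ - x₂)) ≤ (x₃ - x₁) ^ 2 := by
    nlinarith [sq_nonneg ((x₂ - x₁) - (x₃ - x₂))]
  have h8 : 0 < (x₂ - x₁) * (x₃ - x₂) := by positivity
  calc 8 * W₁ ^ 3 = 2 * ((4 * W₁ ^ 2) * W₁) := by ring
    _ ≤ 2 * (((x₂ - x₁) * (x₃ - x₂) * (v12 + v13 + v23)) * W₁) := by
        have := mul_le_mul_of_nonneg_right (h4.trans hge) hW1.le
        linarith
    _ = 2 * ((x₂ - x₁) * (x₃ - x₂)) * ((v12 + v13 + v23) * W₁) := by ring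
    _ ≤ 2 * ((x₂ - x₁) * (x₃ - x₂)) * (2 * ((A * c - 16) * (x₃ - x₁))) :=
        mul_le_mul_of_nonneg_left h6 (by positivity)
    _ = (4 * ((x₂ - x₁) * (x₃ - x₂))) * ((A * c - 16) * (x₃ - x₁)) := by ring
    _ ≤ (x₃ - x₁) ^ 2 * ((A * c - 16) * (x₃ - x₁)) := by
        apply mul_le_mul_of_nonneg_right h7
        have : 0 < x₃ - x₁ := by linarith
        positivity
    _ = _ := by ring

/-- The set of `x` for which `8 (y ^ b + 1) x ^ 2 - 8 x + 4 b y (y - 1) + 1` is a square. -/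
def Sol (b y : ℕ) : Set ℕ :=
  {x | 1 ≤ x ∧ ∃ W : ℤ, 0 < W ∧
    W ^ 2 = 8 * ((y : ℤ) ^ b + 1) * (x : ℤ) ^ 2 - 8 * x + (4 * b * (y * (y - 1)) + 1)}

lemma sol_gap {b y x₁ x₂ x₃ : ℕ} (hb : 3 ≤ b) (hy : 2 ≤ y) (h1 : x₁ ∈ Sol b y) (h2 : x₂ ∈ Sol b y)
    (h3 : x₃ ∈ Sol b y) (h12 : x₁ < x₂) (h23 : x₂ < x₃) :
    (x₁ : ℤ) ^ 6 ≤ b ^ 2 * y * ((x₃ : ℤ) - x₁) ^ 6 := by
  obtain ⟨hx1, W₁, hW1, e1⟩ := h1
  obtain ⟨-, W₂, hW2, e2⟩ := h2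
  obtain ⟨-, W₃, hW3, e3⟩ := h3
  have hy' : (2 : ℤ) ≤ y := by exact_mod_cast hy
  have hb' : (3 : ℤ) ≤ b := by exact_mod_cast hb
  have hyb : (8 : ℤ) ≤ (y : ℤ) ^ b := by
    calc (8 : ℤ) = 2 ^ 3 := by norm_num
      _ ≤ (y : ℤ) ^ 3 := pow_le_pow_left₀ (by norm_num) hy' 3
      _ ≤ (y : ℤ) ^ b := pow_le_pow_right₀ (by linarith) hb
  set A : ℤ := 8 * ((y : ℤ) ^ b + 1) with hA
  set c : ℤ := 4 * b * (y * (y - 1)) + 1 with hc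
  have hA72 : 72 ≤ A := by linarith
  have hc1 : 1 ≤ c := by
    have : (0 : ℤ) ≤ 4 * b * (y * (y - 1)) := by
      have : (0 : ℤ) ≤ (y : ℤ) - 1 := by linarith
      positivity
    linarith
  have hx1' : (1 : ℤ) ≤ x₁ := by exact_mod_cast hx1
  have h12' : (x₁ : ℤ) < x₂ := by exact_mod_cast h12
  have h23' : (x₂ : ℤ) < x₃ := by exact_mod_cast h23
  have h3p := three_points hA72 hc1 hx1' h12' h23' hW1 hW2 hW3 e1 e2 e3
  set h : ℤ := (x₃ : ℤ) - x₁ with hh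
  have hh0 : 0 < h := by linarith
  have hcle : c ≤ 4 * b * y ^ 2 := by
    have : (4 : ℤ) * b * y ^ 2 - c = 4 * b * y - 1 := by rw [hc]; ring
    nlinarith
  have hW1sq : 8 * (A * (x₁ : ℤ) ^ 2) ≤ 9 * W₁ ^ 2 := by
    rw [e1]
    nlinarith
  have h4 : 8 * W₁ ^ 3 ≤ A * c * h ^ 3 := by
    refine h3p.trans ?_
    apply mul_le_mul_of_nonneg_right (by linarith) (by positivity)
  have h5 : (8 * W₁ ^ 3) ^ 2 ≤ (A * c * h ^ 3) ^ 2 := pow_le_pow_left₀ (by positivity) h4 2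
  have h6 : (8 * (A * (x₁ : ℤ) ^ 2)) ^ 3 ≤ (9 * W₁ ^ 2) ^ 3 := pow_le_pow_left₀ (by positivity) hW1sq 3
  -- combine
  have h7 : 64 * 512 * (A ^ 3 * (x₁ : ℤ) ^ 6) ≤ 729 * (A ^ 2 * (c ^ 2 * h ^ 6)) := by
    calc 64 * 512 * (A ^ 3 * (x₁ : ℤ) ^ 6) = 64 * (8 * (A * (x₁ : ℤ) ^ 2)) ^ 3 := by ring
      _ ≤ 64 * (9 * W₁ ^ 2) ^ 3 := by linarith
      _ = 729 * (8 * W₁ ^ 3) ^ 2 := by ring
      _ ≤ 729 * (A * c * h ^ 3) ^ 2 := by linarith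
      _ = _ := by ring
  have h8 : 40 * (A * (x₁ : ℤ) ^ 6) ≤ c ^ 2 * h ^ 6 := by
    have hA2 : 0 < 729 * A ^ 2 := by positivity
    have h9 : (729 * A ^ 2) * (40 * (A * (x₁ : ℤ) ^ 6)) ≤ (729 * A ^ 2) * (c ^ 2 * h ^ 6) := by
      have h90 : (0 : ℤ) ≤ A ^ 3 * (x₁ : ℤ) ^ 6 := by positivity
      calc (729 * A ^ 2) * (40 * (A * (x₁ : ℤ) ^ 6)) = 29160 * (A ^ 3 * (x₁ : ℤ) ^ 6) := by ring
        _ ≤ 64 * 512 * (A ^ 3 * (x₁ : ℤ) ^ 6) := by linarith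
        _ ≤ 729 * (A ^ 2 * (c ^ 2 * h ^ 6)) := h7
        _ = _ := by ring
    exact le_of_mul_le_mul_left h9 hA2
  have h10 : c ^ 2 ≤ 16 * b ^ 2 * y ^ 4 := by
    calc c ^ 2 ≤ (4 * b * y ^ 2) ^ 2 := pow_le_pow_left₀ (by linarith) hcle 2
      _ = _ := by ring
  have h11 : (y : ℤ) ^ 3 ≤ A := by
    have : (y : ℤ) ^ 3 ≤ (y : ℤ) ^ b := pow_le_pow_right₀ (by linarith) hb
    linarith
  have h12 : (16 * (y : ℤ) ^ 3) * (x₁ : ℤ) ^ 6 ≤ (16 * (y : ℤ) ^ 3) * (b ^ 2 * y * h ^ 6) := by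
    calc (16 * (y : ℤ) ^ 3) * (x₁ : ℤ) ^ 6 ≤ 40 * (A * (x₁ : ℤ) ^ 6) := by
          have h13 : (y : ℤ) ^ 3 * (x₁ : ℤ) ^ 6 ≤ A * (x₁ : ℤ) ^ 6 :=
            mul_le_mul_of_nonneg_right h11 (by positivity)
          have : 0 ≤ A * (x₁ : ℤ) ^ 6 := by positivity
          linarith
      _ ≤ c ^ 2 * h ^ 6 := h8
      _ ≤ (16 * b ^ 2 * y ^ 4) * h ^ 6 := mul_le_mul_of_nonneg_right h10 (by positivity)
      _ = _ := by ring
  exact le_of_mul_le_mul_left h12 (by positivity)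

end Pool.Agent.R481.S2
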