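import Mathlib
open scoped ENNReal
namespace Pool.Agent.R481.S2

open Classical in
/-- Number of elements of `S` below `x`. -/
noncomputable def rk (S : Set ℕ) (x : ℕ) : ℕ := ((Finset.range x).filter (· ∈ S)).card

lemma rk_strictMono {S : Set ℕ} {a b : ℕ} (ha : a ∈ S) (hab : a < b) : rk S a < rk S b := by
  classical
  unfold rk
  apply Finset.card_lt_card
  rw [Finset.ssubset_iff_of_subset]
  · exact ⟨a, by simp [ha, hab], by simp⟩
  · intro z hz
    simp only [Finset.mem_filter, Finset.mem_range] at hz ⊢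
    exact ⟨hz.1.trans hab, hz.2⟩

lemma rk_injOn (S : Set ℕ) : Set.InjOn (rk S) S := by
  intro a ha b hb h
  rcases lt_trichotomy a b with h1 | h1 | h1
  · exact absurd h (rk_strictMono ha h1).ne
  · exact h1
  · exact absurd h.symm (rk_strictMono hb h1).ne

lemma rk_pred {S : Set ℕ} {x : ℕ} (h : 1 ≤ rk S x) : ∃ b ∈ S, b < x ∧ rk S x = rk S b + 1 := by
  classical
  unfold rk at h
  have hne : ((Finset.range x).filter (· ∈ S)).Nonempty := Finset.card_pos.mp (by omega)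
  set b := ((Finset.range x).filter (· ∈ S)).max' hne with hb
  have hbm : b ∈ (Finset.range x).filter (· ∈ S) := Finset.max'_mem _ _
  have hbm' := hbm
  simp only [Finset.mem_filter, Finset.mem_range] at hbm'
  refine ⟨b, hbm'.2, hbm'.1, ?_⟩
  unfold rk
  have : (Finset.range x).filter (· ∈ S) = insert b ((Finset.range b).filter (· ∈ S)) := by
    ext z
    simp only [Finset.mem_filter, Finset.mem_range, Finset.mem_insert]
    constructor
    · rintro ⟨h1, h2⟩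
      have : z ≤ b := Finset.le_max' _ z (by simp [h1, h2])
      rcases this.lt_or_eq with h3 | h3
      · exact Or.inr ⟨h3, h2⟩
      · exact Or.inl h3
    · rintro (h1 | ⟨h1, h2⟩)
      · subst h1; exact hbm'
      · exact ⟨h1.trans hbm'.1, h2⟩
  rw [this, Finset.card_insert_of_notMem (by simp)]

/-- If any three elements `a < b < c` of `S` satisfy `κ a ≤ c - a`, then `S` is sparse. -/
lemma rk_bound {S : Set ℕ} {κ : ℝ} (hκ : 0 < κ) (hκ1 : κ ≤ 1) (hS1 : ∀ a ∈ S, 1 ≤ a)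
    (hS : ∀ a ∈ S, ∀ b ∈ S, ∀ c ∈ S, a < b → b < c → κ * a ≤ (c : ℝ) - a) :
    ∀ x ∈ S, (rk S x : ℝ) ≤ 2 + 6 * √x / κ := by
  intro x
  induction x using Nat.strong_induction_on with
  | _ x ih =>
    intro hx
    rcases Nat.lt_or_ge (rk S x) 1 with h1 | h1
    · have : rk S x = 0 := by omega
      rw [this]
      push_cast
      positivity
    obtain ⟨b, hb, hbx, hrb⟩ := rk_pred h1
    rcases Nat.lt_or_ge (rk S b) 1 with h2 | h2
    · have : rk S x = 1 := by omega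
      rw [this]
      push_cast
      have : 0 ≤ 6 * √(x : ℝ) / κ := by positivity
      linarith
    obtain ⟨a, ha, hab, hra⟩ := rk_pred h2
    have h3 := ih a (hab.trans hbx) ha
    have h4 := hS a ha b hb x hx hab hbx
    have ha1 : (1 : ℝ) ≤ a := by exact_mod_cast hS1 a ha
    have hsa : 1 ≤ √(a : ℝ) := by
      rw [show (1 : ℝ) = √1 by simp]
      exact Real.sqrt_le_sqrt ha1
    have h5 : √(a : ℝ) + κ / 3 ≤ √(x : ℝ) := by
      apply Real.le_sqrt_of_sq_le
      have hsq : √(a : ℝ) ^ 2 = a := Real.sq_sqrt (by linarith)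
      have h6 : √(a : ℝ) * κ ≤ κ * a := by
        rw [mul_comm]
        apply mul_le_mul_of_nonneg_left _ hκ.le
        nlinarith
      nlinarith
    have hr : (rk S x : ℝ) = rk S a + 2 := by
      rw [hrb, hra]; push_cast; ring
    rw [hr]
    have h7 : 6 * √(a : ℝ) / κ + 2 ≤ 6 * √(x : ℝ) / κ := by
      rw [div_add' _ _ _ hκ.ne', div_le_div_iff_of_pos_right hκ]
      linarith
    linarith

/-- The weight used for counting. -/
noncomputable def wt (s x : ℝ) : ℝ≥0∞ := ENNReal.ofReal (x ^ (-s))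

lemma wt_anti {s x y : ℝ} (hs : 0 ≤ s) (hx : 0 < x) (hxy : x ≤ y) : wt s y ≤ wt s x := by
  unfold wt
  apply ENNReal.ofReal_le_ofReal
  exact Real.rpow_le_rpow_of_nonpos hx hxy (by linarith)

lemma wt_mul {s x y : ℝ} (hx : 0 ≤ x) (hy : 0 ≤ y) : wt s (x * y) = wt s x * wt s y := by
  unfold wt
  rw [Real.mul_rpow hx hy, ENNReal.ofReal_mul (by positivity)]

lemma wt_ne_top {s x : ℝ} : wt s x ≠ ⊤ := ENNReal.ofReal_ne_top

lemma wt_pow {s x : ℝ} (hx : 0 ≤ x) (k : ℕ) : wt s (x ^ k) = wt s x ^ k := by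
  unfold wt
  rw [← ENNReal.ofReal_pow (by positivity), ← Real.rpow_natCast x k, ← Real.rpow_mul hx,
    ← Real.rpow_natCast (x ^ (-s)), ← Real.rpow_mul hx]
  ring_nf

/-- The sum over a sparse set. -/
lemma sum_sparse {s : ℝ} (hs : 1 / 2 < s) : ∃ C : ℝ≥0∞, C ≠ ⊤ ∧ ∀ (S : Set ℕ) (κ : ℝ), 0 < κ → κ ≤ 1 →
    (∀ a ∈ S, 1 ≤ a) →
    (∀ a ∈ S, ∀ b ∈ S, ∀ c ∈ S, a < b → b < c → κ * a ≤ (c : ℝ) - a) →
    ∑' x : S, wt s ((x : ℕ) : ℝ) ≤ C * wt s (κ ^ 2) := by
  have hsum : Summable (fun n : ℕ => ((n : ℝ) + 1) ^ (-(2 * s))) := by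
    have h1 : Summable (fun n : ℕ => ((n : ℝ)) ^ (-(2 * s))) :=
      Real.summable_nat_rpow.mpr (by linarith)
    have h2 := (summable_nat_add_iff 1).mpr h1
    simpa using h2
  have hnt : (∑' r : ℕ, wt s (((r : ℝ) + 1) ^ 2)) ≠ ⊤ := by
    have h3 : ∀ r : ℕ, wt s (((r : ℝ) + 1) ^ 2) = ENNReal.ofReal (((r : ℝ) + 1) ^ (-(2 * s))) := by
      intro r
      unfold wt
      congr 1
      rw [← Real.rpow_natCast, ← Real.rpow_mul (by positivity)]
      congr 1
      push_cast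
      ring
    simp_rw [h3]
    exact hsum.tsum_ofReal_ne_top
  refine ⟨wt s (1 / 81) * ∑' r : ℕ, wt s (((r : ℝ) + 1) ^ 2), ENNReal.mul_ne_top wt_ne_top hnt, ?_⟩
  intro S κ hκ hκ1 hS1 hS
  have h4 : ∀ x : S, wt s ((x : ℕ) : ℝ) ≤
      wt s (κ ^ 2) * wt s (1 / 81) * wt s (((rk S x : ℝ) + 1) ^ 2) := by
    rintro ⟨x, hx⟩
    simp only
    rw [← wt_mul (by positivity) (by positivity), ← wt_mul (by positivity) (by positivity)]
    apply wt_anti (by linarith) (by positivity)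
    have h5 := rk_bound hκ hκ1 hS1 hS x hx
    have hx1 : (1 : ℝ) ≤ x := by exact_mod_cast hS1 x hx
    have hsx : 1 ≤ √(x : ℝ) := by
      rw [show (1 : ℝ) = √1 by simp]
      exact Real.sqrt_le_sqrt hx1
    have h6 : κ * ((rk S x : ℝ) + 1) ≤ 9 * √(x : ℝ) := by
      have h7 : κ * (rk S x : ℝ) ≤ κ * (2 + 6 * √x / κ) := mul_le_mul_of_nonneg_left h5 hκ.le
      have h8 : κ * (2 + 6 * √x / κ) = 2 * κ + 6 * √x := by field_simp
      nlinarith
    have h9 : (κ * ((rk S x : ℝ) + 1)) ^ 2 ≤ (9 * √(x : ℝ)) ^ 2 :=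
      pow_le_pow_left₀ (by positivity) h6 2
    have hsq : √(x : ℝ) ^ 2 = x := Real.sq_sqrt (by linarith)
    nlinarith
  calc ∑' x : S, wt s ((x : ℕ) : ℝ)
      ≤ ∑' x : S, wt s (κ ^ 2) * wt s (1 / 81) * wt s (((rk S x : ℝ) + 1) ^ 2) :=
        ENNReal.tsum_le_tsum h4
    _ = wt s (κ ^ 2) * wt s (1 / 81) * ∑' x : S, wt s (((rk S x : ℝ) + 1) ^ 2) :=
        ENNReal.tsum_mul_left
    _ ≤ wt s (κ ^ 2) * wt s (1 / 81) * ∑' r : ℕ, wt s (((r : ℝ) + 1) ^ 2) := by
        gcongr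
        have hinj : Function.Injective (fun x : S => rk S x) := by
          intro a b h
          exact Subtype.ext (rk_injOn S a.2 b.2 h)
        exact ENNReal.tsum_comp_le_tsum_of_injective hinj (fun r : ℕ => wt s (((r : ℝ) + 1) ^ 2))
    _ = _ := by ring

end Pool.Agent.R481.S2
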