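import Pool.Agent.R481.S2.Rank
import Pool.Agent.R481.S2.Conic
import Pool.Agent.R481.S2.Divisor
import Pool.Agent.R481.S2.Arith

open scoped ENNReal

namespace Pool.Agent.R481.S2

lemma wt_add {a b x : ℝ} (hx : 0 < x) : wt a x * wt b x = wt (a + b) x := by
  unfold wt
  rw [← ENNReal.ofReal_mul (by positivity), ← Real.rpow_add hx]
  congr 2
  ring

lemma wt_sq {a x : ℝ} (hx : 0 ≤ x) : wt a (x ^ 2) = wt (2 * a) x := by
  unfold wt
  rw [← Real.rpow_natCast x 2, ← Real.rpow_mul hx]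
  congr 2
  push_cast
  ring

lemma ofReal_rpow_eq_wt {x u : ℝ} : ENNReal.ofReal (x ^ u) = wt (-u) x := by
  unfold wt
  rw [neg_neg]

/-- Sum of the weights `(p + 3) ^ (- 19 / 20)` over a set of naturals. -/
noncomputable def Z (B : Set ℕ) : ℝ≥0∞ := ∑' p : B, wt (19 / 20) (((p : ℕ) : ℝ) + 3)

lemma Z_mono {A B : Set ℕ} (h : A ⊆ B) : Z A ≤ Z B :=
  ENNReal.tsum_mono_subtype (fun p : ℕ => wt (19 / 20) ((p : ℝ) + 3)) h

lemma Z_iUnion {ι : Type*} (B : ι → Set ℕ) : Z (⋃ i, B i) ≤ ∑' i, Z (B i) :=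
  ENNReal.tsum_iUnion_le_tsum (fun p : ℕ => wt (19 / 20) ((p : ℝ) + 3)) B

lemma Z_union (A B : Set ℕ) : Z (A ∪ B) ≤ Z A + Z B :=
  ENNReal.tsum_union_le (fun p : ℕ => wt (19 / 20) ((p : ℝ) + 3)) A B

lemma Z_finite {B : Set ℕ} (F : Finset ℕ) (hF : B ⊆ ↑F) {L : ℝ≥0∞}
    (hL : ∀ p ∈ B, wt (19 / 20) ((p : ℝ) + 3) ≤ L) : Z B ≤ F.card * L := by
  classical
  unfold Z
  rw [tsum_subtype B (fun p : ℕ => wt (19 / 20) ((p : ℝ) + 3))]
  rw [tsum_eq_sum (s := F)]
  · calc ∑ b ∈ F, B.indicator (fun p : ℕ => wt (19 / 20) ((p : ℝ) + 3)) b ≤ ∑ b ∈ F, L := by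
          apply Finset.sum_le_sum
          intro b _
          by_cases hb : b ∈ B
          · rw [Set.indicator_of_mem hb]; exact hL b hb
          · rw [Set.indicator_of_notMem hb]; exact zero_le
      _ = _ := by rw [Finset.sum_const, nsmul_eq_mul]
  · intro b hb
    apply Set.indicator_of_notMem
    intro h
    exact hb (hF h)

/-- `∑_{k ≥ 3} ∑_{x ≥ 2} (x ^ k) ^ (-u)` converges for `u > 1 / 3`. -/
lemma sum_powers {u : ℝ} (hu : 1 / 3 < u) :
    ∑' q : ℕ × ℕ, wt u (((q.2 : ℝ) + 2) ^ (q.1 + 3)) ≠ ⊤ := by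
  have h1 : ∀ q : ℕ × ℕ, wt u (((q.2 : ℝ) + 2) ^ (q.1 + 3)) ≤
      wt u 2 ^ q.1 * wt (3 * u) ((q.2 : ℝ) + 2) := by
    rintro ⟨k, z⟩
    simp only
    rw [pow_add, wt_mul (by positivity) (by positivity), wt_pow (by positivity)]
    have h2 : wt u (((z : ℝ) + 2) ^ 3) = wt (3 * u) ((z : ℝ) + 2) := by
      unfold wt
      rw [← Real.rpow_natCast, ← Real.rpow_mul (by positivity)]
      congr 2
      push_cast
      ring
    rw [h2]
    gcongr
    apply wt_anti (by linarith) (by norm_num)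
    have : (0 : ℝ) ≤ z := Nat.cast_nonneg z
    linarith
  have h3 : ∑' q : ℕ × ℕ, wt u 2 ^ q.1 * wt (3 * u) ((q.2 : ℝ) + 2)
      = (∑' k : ℕ, wt u 2 ^ k) * ∑' z : ℕ, wt (3 * u) ((z : ℝ) + 2) := by
    rw [ENNReal.tsum_prod (f := fun (k z : ℕ) => wt u 2 ^ k * wt (3 * u) ((z : ℝ) + 2))]
    rw [← ENNReal.tsum_mul_right]
    congr 1
    ext k
    rw [ENNReal.tsum_mul_left]
  have h4 : (∑' k : ℕ, wt u 2 ^ k) ≠ ⊤ := by
    rw [ENNReal.tsum_geometric]
    rw [ENNReal.inv_ne_top]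
    have : wt u 2 < 1 := by
      unfold wt
      rw [ENNReal.ofReal_lt_one]
      exact Real.rpow_lt_one_of_one_lt_of_neg (by norm_num) (by linarith)
    exact (tsub_pos_of_lt this).ne'
  have h5 : ∑' z : ℕ, wt (3 * u) ((z : ℝ) + 2) ≠ ⊤ := by
    have h1 : Summable (fun n : ℕ => ((n : ℝ)) ^ (-(3 * u))) :=
      Real.summable_nat_rpow.mpr (by linarith)
    have h2 := (summable_nat_add_iff 2).mpr h1
    have h6 : Summable (fun n : ℕ => ((n : ℝ) + 2) ^ (-(3 * u))) := by simpa using h2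
    exact h6.tsum_ofReal_ne_top
  refine ne_top_of_le_ne_top ?_ (ENNReal.tsum_le_tsum h1)
  rw [h3]
  exact ENNReal.mul_ne_top h4 h5

/-- From `P ≤ 2 (p + 3) ^ 2` to a bound for the weight. -/
lemma wt_of_size {p : ℕ} {P K : ℝ} (hP : 0 < P) (hK : 0 < K) (h : P ≤ K * ((p : ℝ) + 3) ^ 2) :
    wt (19 / 20) ((p : ℝ) + 3) ≤ wt (19 / 40) (1 / K) * wt (19 / 40) P := by
  rw [← wt_mul (by positivity) hP.le]
  have h1 : wt (19 / 20) ((p : ℝ) + 3) = wt (19 / 40) (((p : ℝ) + 3) ^ 2) := by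
    rw [wt_sq (by positivity)]
    norm_num
  rw [h1]
  apply wt_anti (by norm_num) (by positivity)
  rw [one_div, inv_mul_le_iff₀ hK]
  exact h

/-! ### The exceptional sets -/

/-- Type `(a,1)`, `a ≥ 3`. -/
def setA (a x : ℕ) : Set ℕ :=
  {p | ∃ m D : ℕ, m + a * x + D = x ^ a ∧ D ∣ x ^ (2 * a) - (x ^ a + a * (x * (x - 1))) ∧
    x ^ a ≤ 2 * (p + 3) ^ 2 ∧ p + 1 = m + a}

/-- Type `(a,b)`, `a, b ≥ 2`: given all parameters there is at most one value. -/
def setBC (a b x y : ℕ) : Set ℕ :=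
  {p | ∃ m : ℕ, Eqn m a b x y ∧ p + 2 = m + a + b}

/-- Type `(2,1)` for primes. -/
def setD (X : ℕ) : Set ℕ :=
  {p | 7 ≤ p ∧ ∃ D : ℕ, D ∣ (X + 1) * (X + 3) ∧ 3 * D ≤ (X + 1) * (X + 3) ∧ p + D = X ^ 2}

lemma G_pos {a x : ℕ} (ha : 3 ≤ a) (hx : 2 ≤ x) : 0 < x ^ (2 * a) - (x ^ a + a * (x * (x - 1))) := by
  obtain ⟨X, rfl⟩ : ∃ X, x = X + 1 := ⟨x - 1, by omega⟩
  have h1 : 1 + a * X ≤ (X + 1) ^ a := by
    have := one_add_mul_le_pow (show (-2 : ℤ) ≤ (X : ℤ) by omega) a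
    have h2 : ((1 + a * X : ℕ) : ℤ) ≤ (((X + 1) ^ a : ℕ) : ℤ) := by
      push_cast
      rw [add_comm (X : ℤ) 1]
      linarith
    exact_mod_cast h2
  have h2 : X + 1 < (X + 1) ^ a := by
    calc X + 1 = (X + 1) ^ 1 := by ring
      _ < (X + 1) ^ a := Nat.pow_lt_pow_right (by omega) (by omega)
  have h3 : (X + 1) ^ (2 * a) = (X + 1) ^ a * (X + 1) ^ a := by rw [two_mul, pow_add]
  rw [h3, Nat.add_sub_cancel]
  set R := (X + 1) ^ a
  have h4 : R + a * ((X + 1) * X) < R * R := by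
    have h5 : (1 + a * X) * (X + 1) < R * R := by
      calc (1 + a * X) * (X + 1) ≤ R * (X + 1) := Nat.mul_le_mul_right _ h1
        _ < R * R := Nat.mul_lt_mul_of_pos_left h2 (by positivity)
    have h6 : (1 + a * X) * (X + 1) = (X + 1) + a * ((X + 1) * X) := by ring
    -- need a finer bound: R (R - 1) > a X (X + 1)
    have h7 : 1 + a * X ≤ R := h1
    have h8 : X + 2 ≤ R := h2
    obtain ⟨e, he⟩ := Nat.exists_eq_add_of_le h7
    obtain ⟨f, hf⟩ := Nat.exists_eq_add_of_le h8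
    have h9 : R * R = R + R * (R - 1) := by
      have : 1 ≤ R := by omega
      zify [this]; ring
    rw [h9]
    have h10 : a * ((X + 1) * X) < R * (R - 1) := by
      have h11 : a * X ≤ R - 1 := by omega
      calc a * ((X + 1) * X) = (X + 1) * (a * X) := by ring
        _ ≤ (X + 1) * (R - 1) := Nat.mul_le_mul_left _ h11
        _ < R * (R - 1) := Nat.mul_lt_mul_of_pos_right h2 (by omega)
    omega
  omega

lemma Z_A : Z (⋃ q : ℕ × ℕ, setA (q.1 + 3) (q.2 + 2)) ≠ ⊤ := by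
  obtain ⟨C, hC, hdiv⟩ := divisor_bound_real (1 / 20) (by norm_num)
  have hb : ∀ q : ℕ × ℕ, Z (setA (q.1 + 3) (q.2 + 2)) ≤
      (ENNReal.ofReal C * wt (19 / 40) (1 / 2)) * wt (3 / 8) (((q.2 : ℝ) + 2) ^ (q.1 + 3)) := by
    rintro ⟨k, z⟩
    simp only
    set a := k + 3 with ha
    set x := z + 2 with hx
    set G := x ^ (2 * a) - (x ^ a + a * (x * (x - 1))) with hG
    have hGpos : 0 < G := G_pos (by omega) (by omega)
    have hxr : ((z : ℝ) + 2) = (x : ℝ) := by rw [hx]; push_cast; ring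
    rw [hxr]
    have hR : (1 : ℝ) ≤ (x : ℝ) ^ a := by
      apply one_le_pow₀
      rw [← hxr]
      have : (0 : ℝ) ≤ z := Nat.cast_nonneg z
      linarith
    have h1 : Z (setA a x) ≤ (G.divisors.image (fun D => x ^ a - (a * x + D) + a - 1)).card *
        (wt (19 / 40) (1 / 2) * wt (19 / 40) ((x : ℝ) ^ a)) := by
      apply Z_finite
      · rintro p ⟨m, D, h1, h2, h3, h4⟩
        simp only [Finset.coe_image, Set.mem_image, Finset.mem_coe, Nat.mem_divisors]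
        refine ⟨D, ⟨h2, hGpos.ne'⟩, ?_⟩
        omega
      · rintro p ⟨m, D, h1, h2, h3, h4⟩
        apply wt_of_size (by positivity) (by norm_num)
        have : ((x ^ a : ℕ) : ℝ) ≤ ((2 * (p + 3) ^ 2 : ℕ) : ℝ) := by exact_mod_cast h3
        push_cast at this
        exact this
    have h2 : (((G.divisors.image (fun D => x ^ a - (a * x + D) + a - 1)).card : ℕ) : ℝ≥0∞) ≤
        ENNReal.ofReal C * wt (-(1 / 10)) ((x : ℝ) ^ a) := by
      have h3 : (G.divisors.image (fun D => x ^ a - (a * x + D) + a - 1)).card ≤ G.divisors.card :=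
        Finset.card_image_le
      have h4 : ((G.divisors.card : ℕ) : ℝ) ≤ C * ((x : ℝ) ^ a) ^ ((1 : ℝ) / 10) := by
        refine (hdiv G hGpos.ne').trans ?_
        apply mul_le_mul_of_nonneg_left _ hC.le
        have h5 : (G : ℝ) ≤ ((x : ℝ) ^ a) ^ (2 : ℝ) := by
          have h6 : G ≤ x ^ (2 * a) := Nat.sub_le _ _
          have h7 : (G : ℝ) ≤ ((x ^ (2 * a) : ℕ) : ℝ) := by exact_mod_cast h6
          push_cast at h7
          rw [pow_mul'] at h7
          rw [show (2 : ℝ) = ((2 : ℕ) : ℝ) by norm_num, Real.rpow_natCast]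
          exact h7
        calc (G : ℝ) ^ ((1 : ℝ) / 20) ≤ (((x : ℝ) ^ a) ^ (2 : ℝ)) ^ ((1 : ℝ) / 20) :=
              Real.rpow_le_rpow (by positivity) h5 (by norm_num)
          _ = ((x : ℝ) ^ a) ^ ((1 : ℝ) / 10) := by
              rw [← Real.rpow_mul (by positivity)]
              norm_num
      calc (((G.divisors.image (fun D => x ^ a - (a * x + D) + a - 1)).card : ℕ) : ℝ≥0∞)
          ≤ ((G.divisors.card : ℕ) : ℝ≥0∞) := by exact_mod_cast h3
        _ = ENNReal.ofReal ((G.divisors.card : ℕ) : ℝ) := by rw [ENNReal.ofReal_natCast]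
        _ ≤ ENNReal.ofReal (C * ((x : ℝ) ^ a) ^ ((1 : ℝ) / 10)) := ENNReal.ofReal_le_ofReal h4
        _ = _ := by rw [ENNReal.ofReal_mul hC.le, ofReal_rpow_eq_wt]
    calc Z (setA a x) ≤ _ := h1
      _ ≤ (ENNReal.ofReal C * wt (-(1 / 10)) ((x : ℝ) ^ a)) *
          (wt (19 / 40) (1 / 2) * wt (19 / 40) ((x : ℝ) ^ a)) := by gcongr
      _ = (ENNReal.ofReal C * wt (19 / 40) (1 / 2)) *
          (wt (-(1 / 10)) ((x : ℝ) ^ a) * wt (19 / 40) ((x : ℝ) ^ a)) := by ring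
      _ = _ := by
          rw [wt_add (by positivity)]
          norm_num
  refine ne_top_of_le_ne_top ?_ ((Z_iUnion _).trans (ENNReal.tsum_le_tsum hb))
  rw [ENNReal.tsum_mul_left]
  exact ENNReal.mul_ne_top (ENNReal.mul_ne_top ENNReal.ofReal_ne_top wt_ne_top)
    (sum_powers (by norm_num))

lemma Z_D : Z (⋃ X : ℕ, setD (X + 1)) ≠ ⊤ := by
  obtain ⟨C, hC, hdiv⟩ := divisor_bound_real (1 / 20) (by norm_num)
  have hb : ∀ z : ℕ, Z (setD (z + 1)) ≤
      (ENNReal.ofReal C * wt (-(1 / 20)) 8 * wt (19 / 20) (1 / 3)) * wt (9 / 5) ((z : ℝ) + 1) := by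
    intro z
    set X := z + 1 with hX
    have hXr : ((z : ℝ) + 1) = (X : ℝ) := by rw [hX]; push_cast; ring
    rw [hXr]
    have hX1 : (1 : ℝ) ≤ X := by
      rw [← hXr]
      have : (0 : ℝ) ≤ z := Nat.cast_nonneg z
      linarith
    set G := (X + 1) * (X + 3) with hG
    have hGpos : 0 < G := by positivity
    have h1 : Z (setD X) ≤ (G.divisors.image (fun D => X ^ 2 - D)).card *
        (wt (19 / 20) (1 / 3) * wt (19 / 10) (X : ℝ)) := by
      apply Z_finite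
      · rintro p ⟨h7, D, h1, h2, h3⟩
        simp only [Finset.coe_image, Set.mem_image, Finset.mem_coe, Nat.mem_divisors]
        refine ⟨D, ⟨h1, hGpos.ne'⟩, ?_⟩
        omega
      · rintro p ⟨h7, D, h1, h2, h3⟩
        have h4 : wt (19 / 10) (X : ℝ) = wt (19 / 20) ((X : ℝ) ^ 2) := by
          rw [wt_sq (by positivity)]; norm_num
        rw [h4, ← wt_mul (by positivity) (by positivity)]
        apply wt_anti (by norm_num) (by positivity)
        have h5 : (3 : ℝ) * D ≤ (X + 1) * (X + 3) := by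
          have : ((3 * D : ℕ) : ℝ) ≤ (((X + 1) * (X + 3) : ℕ) : ℝ) := by exact_mod_cast h2
          push_cast at this
          exact this
        have h6 : (p : ℝ) + D = (X : ℝ) ^ 2 := by exact_mod_cast h3
        nlinarith [sq_nonneg ((X : ℝ) - 2)]
    have h2 : (((G.divisors.image (fun D => X ^ 2 - D)).card : ℕ) : ℝ≥0∞) ≤
        ENNReal.ofReal C * (wt (-(1 / 20)) 8 * wt (-(1 / 10)) (X : ℝ)) := by
      have h3 : (G.divisors.image (fun D => X ^ 2 - D)).card ≤ G.divisors.card :=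
        Finset.card_image_le
      have h4 : ((G.divisors.card : ℕ) : ℝ) ≤ C * (8 * (X : ℝ) ^ 2) ^ ((1 : ℝ) / 20) := by
        refine (hdiv G hGpos.ne').trans ?_
        apply mul_le_mul_of_nonneg_left _ hC.le
        apply Real.rpow_le_rpow (by positivity) _ (by norm_num)
        rw [hG]
        push_cast
        nlinarith
      have h5 : wt (-(1 / 10)) (X : ℝ) = wt (-(1 / 20)) ((X : ℝ) ^ 2) := by
        rw [wt_sq (by positivity)]; norm_num
      rw [h5, ← wt_mul (by norm_num) (by positivity)]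
      calc (((G.divisors.image (fun D => X ^ 2 - D)).card : ℕ) : ℝ≥0∞)
          ≤ ((G.divisors.card : ℕ) : ℝ≥0∞) := by exact_mod_cast h3
        _ = ENNReal.ofReal ((G.divisors.card : ℕ) : ℝ) := by rw [ENNReal.ofReal_natCast]
        _ ≤ ENNReal.ofReal (C * (8 * (X : ℝ) ^ 2) ^ ((1 : ℝ) / 20)) := ENNReal.ofReal_le_ofReal h4
        _ = _ := by rw [ENNReal.ofReal_mul hC.le, ofReal_rpow_eq_wt]
    calc Z (setD X) ≤ _ := h1
      _ ≤ (ENNReal.ofReal C * (wt (-(1 / 20)) 8 * wt (-(1 / 10)) (X : ℝ))) *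
          (wt (19 / 20) (1 / 3) * wt (19 / 10) (X : ℝ)) := by gcongr
      _ = (ENNReal.ofReal C * wt (-(1 / 20)) 8 * wt (19 / 20) (1 / 3)) *
          (wt (-(1 / 10)) (X : ℝ) * wt (19 / 10) (X : ℝ)) := by ring
      _ = _ := by
          rw [wt_add (by positivity)]
          norm_num
  refine ne_top_of_le_ne_top ?_ ((Z_iUnion _).trans (ENNReal.tsum_le_tsum hb))
  rw [ENNReal.tsum_mul_left]
  refine ENNReal.mul_ne_top (ENNReal.mul_ne_top (ENNReal.mul_ne_top ENNReal.ofReal_ne_top wt_ne_top)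
    wt_ne_top) ?_
  have h1 : Summable (fun n : ℕ => ((n : ℝ)) ^ (-(9 / 5 : ℝ))) :=
    Real.summable_nat_rpow.mpr (by norm_num)
  have h2 := (summable_nat_add_iff 1).mpr h1
  have h6 : Summable (fun n : ℕ => ((n : ℝ) + 1) ^ (-(9 / 5 : ℝ))) := by simpa using h2
  exact h6.tsum_ofReal_ne_top

end Pool.Agent.R481.S2
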