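import Pool.Agent.R481.S2.Sums

open scoped ENNReal

namespace Pool.Agent.R481.S2

lemma setBC_subsingleton {a b x y : ℕ} (ha : 1 ≤ a) (hx : 2 ≤ x) : (setBC a b x y).Subsingleton := by
  rintro p ⟨m, h1, h2⟩ p' ⟨m', h1', h2'⟩
  unfold Eqn at h1 h1'
  have hS : 2 ≤ a * x := by nlinarith
  have : m = m' := by
    zify at h1 h1' hS
    have h3 : ((m : ℤ) - m') * ((m + m' : ℤ) + 2 * (a * x + b * y) - 1) = 0 := by
      linear_combination h1 - h1'
    rcases mul_eq_zero.mp h3 with h4 | h4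
    · have : (m : ℤ) = m' := by linarith
      exact_mod_cast this
    · exfalso
      have h5 : (0 : ℤ) ≤ m := Nat.cast_nonneg m
      have h6 : (0 : ℤ) ≤ m' := Nat.cast_nonneg m'
      have h7 : (0 : ℤ) ≤ b * y := by positivity
      linarith
  omega

lemma Z_BC_le {a b x y : ℕ} (ha : 2 ≤ a) (hb : 2 ≤ b) (hx : 2 ≤ x) (hy : 2 ≤ y) :
    Z (setBC a b x y) ≤ wt (19 / 40) (1 / 400) * wt (19 / 40) ((x : ℝ) ^ a * (y : ℝ) ^ b) := by
  classical
  rcases (setBC_subsingleton (b := b) (y := y) (by omega : 1 ≤ a) hx).eq_empty_or_singleton with h | ⟨p, h⟩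
  · rw [h]
    unfold Z
    simp
  · have h1 : Z (setBC a b x y) ≤ ({p} : Finset ℕ).card *
        (wt (19 / 40) (1 / 400) * wt (19 / 40) ((x : ℝ) ^ a * (y : ℝ) ^ b)) := by
      apply Z_finite
      · rw [h]; simp
      · rintro q ⟨m, h1, h2⟩
        apply wt_of_size (by positivity) (by norm_num)
        have h3 := typeBC_size ha hb hx hy h1
        have h4 : x ^ a * y ^ b ≤ 400 * (q + 3) ^ 2 := by
          refine h3.trans ?_
          apply Nat.mul_le_mul_left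
          apply Nat.pow_le_pow_left
          omega
        have h5 : ((x ^ a * y ^ b : ℕ) : ℝ) ≤ ((400 * (q + 3) ^ 2 : ℕ) : ℝ) := by exact_mod_cast h4
        push_cast at h5
        exact h5
    simpa using h1

/-- Type `(a,b)` with `a, b ≥ 3`. -/
lemma Z_B : Z (⋃ q : (ℕ × ℕ) × (ℕ × ℕ), setBC (q.1.1 + 3) (q.2.1 + 3) (q.1.2 + 2) (q.2.2 + 2)) ≠ ⊤ := by
  have hb : ∀ q : (ℕ × ℕ) × (ℕ × ℕ), Z (setBC (q.1.1 + 3) (q.2.1 + 3) (q.1.2 + 2) (q.2.2 + 2)) ≤
      wt (19 / 40) (1 / 400) * (wt (19 / 40) (((q.1.2 : ℝ) + 2) ^ (q.1.1 + 3)) *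
        wt (19 / 40) (((q.2.2 : ℝ) + 2) ^ (q.2.1 + 3))) := by
    rintro ⟨⟨k, z⟩, ⟨k', z'⟩⟩
    simp only
    refine (Z_BC_le (by omega) (by omega) (by omega) (by omega)).trans (le_of_eq ?_)
    rw [← wt_mul (s := 19 / 40) (x := ((z : ℝ) + 2) ^ (k + 3)) (by positivity) (by positivity)]
    push_cast
    rfl
  refine ne_top_of_le_ne_top ?_ ((Z_iUnion _).trans (ENNReal.tsum_le_tsum hb))
  rw [ENNReal.tsum_mul_left]
  refine ENNReal.mul_ne_top wt_ne_top ?_
  rw [ENNReal.tsum_prod (f := fun (q q' : ℕ × ℕ) => wt (19 / 40) (((q.2 : ℝ) + 2) ^ (q.1 + 3)) *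
        wt (19 / 40) (((q'.2 : ℝ) + 2) ^ (q'.1 + 3)))]
  have h2 : ∀ q : ℕ × ℕ, ∑' q' : ℕ × ℕ, wt (19 / 40) (((q.2 : ℝ) + 2) ^ (q.1 + 3)) *
        wt (19 / 40) (((q'.2 : ℝ) + 2) ^ (q'.1 + 3))
      = wt (19 / 40) (((q.2 : ℝ) + 2) ^ (q.1 + 3)) *
        ∑' q' : ℕ × ℕ, wt (19 / 40) (((q'.2 : ℝ) + 2) ^ (q'.1 + 3)) := fun q =>
    ENNReal.tsum_mul_left
  simp_rw [h2]
  rw [ENNReal.tsum_mul_right]
  exact ENNReal.mul_ne_top (sum_powers (by norm_num)) (sum_powers (by norm_num))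

lemma mem_Sol {m b x y : ℕ} (hx : 2 ≤ x) (hy : 2 ≤ y) (h : Eqn m 2 b x y) : x ∈ Sol b y := by
  refine ⟨by omega, 2 * ((m : ℤ) + 2 * x + b * y) - 1, ?_, ?_⟩
  · have : (2 : ℤ) ≤ x := by exact_mod_cast hx
    have h2 : (0 : ℤ) ≤ m := Nat.cast_nonneg m
    have h3 : (0 : ℤ) ≤ b * y := by positivity
    linarith
  · unfold Eqn at h
    have h' : ((m : ℤ) + 2 * x + b * y) ^ 2 = 2 * (x ^ 2 * y ^ b) + (m + 2 * x ^ 2 + b * y ^ 2) := by
      exact_mod_cast h
    linear_combination 4 * h'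

lemma exists_K : ∃ K : ℕ, 1 ≤ K ∧ ∀ b y : ℕ, 3 ≤ b → 2 ≤ y → (b ^ 2 * y) ^ 5 ≤ K * (y ^ b) ^ 2 := by
  obtain ⟨C, hC1, hC⟩ := pow_le_two_pow 10
  refine ⟨8 * C, by omega, fun b y hb hy => ?_⟩
  obtain ⟨d, rfl⟩ := Nat.exists_eq_add_of_le hb
  have h1 : (3 + d) ^ 10 ≤ C * 2 ^ (3 + d) :=
    (Nat.pow_le_pow_left (by omega) 10).trans (hC (3 + d))
  calc ((3 + d) ^ 2 * y) ^ 5 = (3 + d) ^ 10 * y ^ 5 := by ring
    _ ≤ (C * 2 ^ (3 + d)) * y ^ 5 := Nat.mul_le_mul_right _ h1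
    _ = 8 * C * (2 ^ d * y ^ 5) := by rw [pow_add]; ring
    _ ≤ 8 * C * (y ^ d * y ^ 5) :=
        Nat.mul_le_mul_left _ (Nat.mul_le_mul_right _ (Nat.pow_le_pow_left hy d))
    _ = 8 * C * y ^ (d + 5) := by rw [pow_add]
    _ ≤ 8 * C * y ^ ((3 + d) * 2) := by
        apply Nat.mul_le_mul_left
        exact Nat.pow_le_pow_right (by omega) (by omega)
    _ = 8 * C * (y ^ (3 + d)) ^ 2 := by rw [pow_mul]

/-- Type `(2,b)` with `b ≥ 3`. -/
def setC (b y : ℕ) : Set ℕ := ⋃ x : ℕ, ⋃ _ : 2 ≤ x, setBC 2 b x y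

lemma Z_C : Z (⋃ q : ℕ × ℕ, setC (q.1 + 3) (q.2 + 2)) ≠ ⊤ := by
  obtain ⟨K, hK1, hK⟩ := exists_K
  obtain ⟨C, hC, hsp⟩ := sum_sparse (s := 19 / 20) (by norm_num)
  have hK1' : (1 : ℝ) ≤ K := by exact_mod_cast hK1
  have hb : ∀ q : ℕ × ℕ, Z (setC (q.1 + 3) (q.2 + 2)) ≤
      (wt (19 / 40) (1 / 400) * (C * wt (-(19 / 300)) (K : ℝ))) *
        wt (209 / 600) (((q.2 : ℝ) + 2) ^ (q.1 + 3)) := by
    rintro ⟨k, z⟩
    simp only
    set b := k + 3 with hb
    set y := z + 2 with hy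
    have hyr : ((z : ℝ) + 2) = (y : ℝ) := by rw [hy]; push_cast; ring
    rw [hyr]
    have hb3 : 3 ≤ b := by omega
    have hy2 : 2 ≤ y := by omega
    have hy1 : (1 : ℝ) ≤ y := by
      have : 1 ≤ y := by omega
      exact_mod_cast this
    set Q : ℝ := (y : ℝ) ^ b with hQ
    have hQ1 : 1 ≤ Q := one_le_pow₀ hy1
    -- the gap constant
    set κ : ℝ := ((K : ℝ) * Q ^ 2) ^ (-(1 / 30 : ℝ)) with hκ
    have hKQ : (1 : ℝ) ≤ (K : ℝ) * Q ^ 2 := by
      have : (1 : ℝ) ≤ Q ^ 2 := one_le_pow₀ hQ1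
      nlinarith
    have hκ0 : 0 < κ := Real.rpow_pos_of_pos (by linarith) _
    have hκ1 : κ ≤ 1 := Real.rpow_le_one_of_one_le_of_nonpos hKQ (by norm_num)
    have hκ30 : κ ^ 30 * ((K : ℝ) * Q ^ 2) = 1 := by
      rw [hκ, ← Real.rpow_natCast, ← Real.rpow_mul (by linarith)]
      have : (-(1 / 30 : ℝ)) * ((30 : ℕ) : ℝ) = -1 := by norm_num
      rw [this, Real.rpow_neg_one]
      exact inv_mul_cancel₀ (by linarith)
    have hgap : ∀ a ∈ Sol b y, ∀ b' ∈ Sol b y, ∀ c ∈ Sol b y, a < b' → b' < c →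
        κ * a ≤ (c : ℝ) - a := by
      intro x₁ h1 x₂ h2 x₃ h3 h12 h23
      have h4 := sol_gap hb3 hy2 h1 h2 h3 h12 h23
      have h5 : (x₁ : ℝ) ^ 6 ≤ (b : ℝ) ^ 2 * y * ((x₃ : ℝ) - x₁) ^ 6 := by exact_mod_cast h4
      have hh : (0 : ℝ) ≤ (x₃ : ℝ) - x₁ := by
        have : (x₁ : ℝ) ≤ x₃ := by exact_mod_cast (h12.trans h23).le
        linarith
      have h6 : ((b : ℝ) ^ 2 * y) ^ 5 ≤ (K : ℝ) * Q ^ 2 := by
        have := hK b y hb3 hy2
        have h7 : (((b ^ 2 * y) ^ 5 : ℕ) : ℝ) ≤ ((K * (y ^ b) ^ 2 : ℕ) : ℝ) := by exact_mod_cast this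
        push_cast at h7
        exact h7
      have h8 : (κ * x₁) ^ 30 ≤ ((x₃ : ℝ) - x₁) ^ 30 := by
        calc (κ * x₁) ^ 30 = κ ^ 30 * ((x₁ : ℝ) ^ 6) ^ 5 := by ring
          _ ≤ κ ^ 30 * ((b : ℝ) ^ 2 * y * ((x₃ : ℝ) - x₁) ^ 6) ^ 5 := by
              apply mul_le_mul_of_nonneg_left _ (by positivity)
              exact pow_le_pow_left₀ (by positivity) h5 5
          _ = κ ^ 30 * ((b : ℝ) ^ 2 * y) ^ 5 * ((x₃ : ℝ) - x₁) ^ 30 := by ring
          _ ≤ κ ^ 30 * ((K : ℝ) * Q ^ 2) * ((x₃ : ℝ) - x₁) ^ 30 := by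
              apply mul_le_mul_of_nonneg_right _ (by positivity)
              exact mul_le_mul_of_nonneg_left h6 (by positivity)
          _ = _ := by rw [hκ30, one_mul]
      exact (pow_le_pow_iff_left₀ (by positivity) hh (by norm_num)).mp h8
    have h9 := hsp (Sol b y) κ hκ0 hκ1 (fun a ha => ha.1) hgap
    have h10 : wt (19 / 20) (κ ^ 2) = wt (-(19 / 300)) (K : ℝ) * wt (-(19 / 150)) Q := by
      have h11 : wt (-(19 / 150)) Q = wt (-(19 / 300)) (Q ^ 2) := by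
        rw [wt_sq (by positivity)]; norm_num
      rw [h11, ← wt_mul (by positivity) (by positivity)]
      unfold wt
      rw [hκ, ← Real.rpow_natCast, ← Real.rpow_mul (by linarith), ← Real.rpow_mul (by linarith)]
      congr 2
      norm_num
    rw [h10] at h9
    have h12 : setC b y ⊆ ⋃ x : Sol b y, setBC 2 b (x : ℕ) y ∩ {p | 2 ≤ (x : ℕ)} := by
      intro p hp
      unfold setC at hp
      simp only [Set.mem_iUnion] at hp
      obtain ⟨x, hx, hp⟩ := hp
      obtain ⟨m, hm1, hm2⟩ := hp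
      rw [Set.mem_iUnion]
      exact ⟨⟨x, mem_Sol hx hy2 hm1⟩, ⟨m, hm1, hm2⟩, hx⟩
    have h13 : ∀ x : Sol b y, Z (setBC 2 b (x : ℕ) y ∩ {p | 2 ≤ (x : ℕ)}) ≤
        wt (19 / 40) (1 / 400) * wt (19 / 40) Q * wt (19 / 20) ((x : ℕ) : ℝ) := by
      rintro ⟨x, hx⟩
      simp only
      by_cases hx2 : 2 ≤ x
      · refine (Z_mono Set.inter_subset_left).trans ?_
        refine (Z_BC_le (by omega) (by omega) hx2 hy2).trans (le_of_eq ?_)
        rw [wt_mul (by positivity) (by positivity), wt_sq (by positivity)]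
        norm_num
        ring
      · have : setBC 2 b x y ∩ {p | 2 ≤ x} = ∅ := by
          ext p
          simp [hx2]
        rw [this]
        unfold Z
        simp
    calc Z (setC b y) ≤ ∑' x : Sol b y, Z (setBC 2 b (x : ℕ) y ∩ {p | 2 ≤ (x : ℕ)}) :=
          (Z_mono h12).trans (Z_iUnion _)
      _ ≤ ∑' x : Sol b y, wt (19 / 40) (1 / 400) * wt (19 / 40) Q * wt (19 / 20) ((x : ℕ) : ℝ) :=
          ENNReal.tsum_le_tsum h13
      _ = wt (19 / 40) (1 / 400) * wt (19 / 40) Q * ∑' x : Sol b y, wt (19 / 20) ((x : ℕ) : ℝ) :=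
          ENNReal.tsum_mul_left
      _ ≤ wt (19 / 40) (1 / 400) * wt (19 / 40) Q * (C * (wt (-(19 / 300)) (K : ℝ) * wt (-(19 / 150)) Q)) := by
          gcongr
      _ = (wt (19 / 40) (1 / 400) * (C * wt (-(19 / 300)) (K : ℝ))) * (wt (19 / 40) Q * wt (-(19 / 150)) Q) := by
          ring
      _ = _ := by
          rw [wt_add (by positivity)]
          norm_num
  refine ne_top_of_le_ne_top ?_ ((Z_iUnion _).trans (ENNReal.tsum_le_tsum hb))
  rw [ENNReal.tsum_mul_left]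
  exact ENNReal.mul_ne_top (ENNReal.mul_ne_top wt_ne_top (ENNReal.mul_ne_top hC wt_ne_top))
    (sum_powers (by norm_num))

/-- A set of naturals with finite weight misses arbitrarily large primes `p ≡ 7 (mod 8)`. -/
lemma exists_prime_notMem {B : Set ℕ} (hB : Z B ≠ ⊤) (N : ℕ) :
    ∃ p, N ≤ p ∧ p.Prime ∧ p % 8 = 7 ∧ p ∉ B := by
  by_contra hcon
  push Not at hcon
  have hunit : IsUnit (7 : ZMod 8) := by decide
  apply ArithmeticFunction.vonMangoldt.not_summable_residueClass_prime_div hunit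
  -- a summable majorant
  have hsumm : Summable (fun p : ℕ => (B ∪ (Finset.range N : Set ℕ)).indicator
      (fun p : ℕ => (((p : ℝ) + 3) ^ (-(19 / 20 : ℝ)))) p) := by
    have h1 : Z (B ∪ (Finset.range N : Set ℕ)) ≠ ⊤ := by
      refine ne_top_of_le_ne_top ?_ (Z_union _ _)
      refine ENNReal.add_ne_top.mpr ⟨hB, ?_⟩
      refine ne_top_of_le_ne_top ?_ (Z_finite (L := wt (19 / 20) 3) (Finset.range N) subset_rfl ?_)
      · exact ENNReal.mul_ne_top (ENNReal.natCast_ne_top _) wt_ne_top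
      · intro p _
        apply wt_anti (by norm_num) (by norm_num)
        have : (0 : ℝ) ≤ p := Nat.cast_nonneg p
        linarith
    unfold Z at h1
    rw [tsum_subtype (B ∪ (Finset.range N : Set ℕ)) (fun p : ℕ => wt (19 / 20) ((p : ℝ) + 3))] at h1
    have h2 : ∀ p : ℕ, (B ∪ (Finset.range N : Set ℕ)).indicator
        (fun p : ℕ => wt (19 / 20) ((p : ℝ) + 3)) p =
        ENNReal.ofReal ((B ∪ (Finset.range N : Set ℕ)).indicator
      (fun p : ℕ => (((p : ℝ) + 3) ^ (-(19 / 20 : ℝ)))) p) := by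
      intro p
      by_cases hp : p ∈ B ∪ (Finset.range N : Set ℕ)
      · rw [Set.indicator_of_mem hp, Set.indicator_of_mem hp]; rfl
      · rw [Set.indicator_of_notMem hp, Set.indicator_of_notMem hp]; simp
    simp_rw [h2] at h1
    have h3 := ENNReal.summable_toReal h1
    refine h3.congr ?_
    intro p
    rw [ENNReal.toReal_ofReal]
    apply Set.indicator_nonneg
    intro q _
    positivity
  refine Summable.of_nonneg_of_le ?_ ?_ (hsumm.mul_left 80)
  · intro n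
    split_ifs
    · apply div_nonneg _ (Nat.cast_nonneg n)
      exact ArithmeticFunction.vonMangoldt.residueClass_nonneg _ n
    · simp
  · intro n
    by_cases hn : n.Prime ∧ (n : ZMod 8) = 7
    · have hn8 : n % 8 = 7 := by
        have h1 : (n : ZMod 8) = ((7 : ℕ) : ZMod 8) := by rw [hn.2]; rfl
        rw [ZMod.natCast_eq_natCast_iff] at h1
        exact h1
      have hmem : n ∈ B ∪ (Finset.range N : Set ℕ) := by
        rcases Nat.lt_or_ge n N with h | h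
        · right; simpa using h
        · left; exact hcon n h hn.1 hn8
      rw [Set.indicator_of_mem hmem, if_pos hn.1]
      have h1 : ArithmeticFunction.vonMangoldt.residueClass (7 : ZMod 8) n = Real.log n := by
        unfold ArithmeticFunction.vonMangoldt.residueClass
        rw [Set.indicator_of_mem (by exact hn.2)]
        exact ArithmeticFunction.vonMangoldt_apply_prime hn.1
      rw [h1]
      have hn1 : (1 : ℝ) ≤ n := by exact_mod_cast hn.1.one_lt.le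
      have hn0 : (0 : ℝ) < n := by linarith
      have h2 : Real.log n ≤ (n : ℝ) ^ (1 / 20 : ℝ) / (1 / 20) :=
        Real.log_le_rpow_div hn0.le (by norm_num)
      have h3 : Real.log n / n ≤ 20 * (n : ℝ) ^ (-(19 / 20 : ℝ)) := by
        rw [div_le_iff₀ hn0]
        have h4 : (n : ℝ) ^ (-(19 / 20 : ℝ)) * n = (n : ℝ) ^ (1 / 20 : ℝ) := by
          nth_rewrite 2 [← Real.rpow_one (n : ℝ)]
          rw [← Real.rpow_add hn0]
          norm_num
        rw [mul_assoc, h4]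
        linarith
      refine h3.trans ?_
      have h5 : (n : ℝ) ^ (-(19 / 20 : ℝ)) ≤ 4 * ((n : ℝ) + 3) ^ (-(19 / 20 : ℝ)) := by
        have h6 : (4 * (n : ℝ)) ^ (-(19 / 20 : ℝ)) ≤ ((n : ℝ) + 3) ^ (-(19 / 20 : ℝ)) :=
          Real.rpow_le_rpow_of_nonpos (by linarith) (by linarith) (by norm_num)
        rw [Real.mul_rpow (by norm_num) hn0.le] at h6
        have h7 : (1 : ℝ) / 4 ≤ (4 : ℝ) ^ (-(19 / 20 : ℝ)) := by
          have : (4 : ℝ) ^ (-1 : ℝ) ≤ (4 : ℝ) ^ (-(19 / 20 : ℝ)) :=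
            Real.rpow_le_rpow_of_exponent_le (by norm_num) (by norm_num)
          rw [Real.rpow_neg_one] at this
          linarith
        have h8 : (0 : ℝ) < (n : ℝ) ^ (-(19 / 20 : ℝ)) := Real.rpow_pos_of_pos hn0 _
        nlinarith
      linarith
    · have h1 : (if n.Prime then ArithmeticFunction.vonMangoldt.residueClass (7 : ZMod 8) n else 0)
          / (n : ℝ) = 0 := by
        split_ifs with hp
        · have : ArithmeticFunction.vonMangoldt.residueClass (7 : ZMod 8) n = 0 := by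
            unfold ArithmeticFunction.vonMangoldt.residueClass
            apply Set.indicator_of_notMem
            intro h
            exact hn ⟨hp, h⟩
          rw [this]; simp
        · simp
      rw [h1]
      apply mul_nonneg (by norm_num)
      apply Set.indicator_nonneg
      intro q _
      positivity

end Pool.Agent.R481.S2
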